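import Pool.Agent.Y787.FS.Met

/-!
# Strongly almost disjoint set mappings meeting every large set almost everywhere

Let `λ` be a singular strong limit cardinal with `2 ^ λ = λ⁺` (under GCH: any singular cardinal),
for example `ℵ_ω`.  On every set `S` of cardinality `λ⁺` there is a set mapping `f` with
`|f x| ≤ λ` and `|f x ∩ f y| < λ` for `x ≠ y` such that every `A ⊆ S` of cardinality `λ⁺` contains a
set `A₀` of cardinality `λ` with

  `|f x ∩ A₀| = λ` for all but at most `λ` points `x` of `S`.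

The relation `(λ⁺, η, λ) → λ⁺` of the question, `η ≥ 2`, asks for an `A` of cardinality `λ⁺` with
`f x ∩ A = ∅` for all `x ∈ A` (up to `x` itself).  So it fails, and it fails in a strong way: no
set of cardinality `λ⁺` is missed by more than `λ` of the sets `f x`.  In particular the polarized
relation `Polar (λ⁺) η λ (λ⁺) (λ⁺)`, which asks only for two sets `A`, `B` of cardinality `λ⁺` with
`y ∉ f x` for all different `x ∈ A`, `y ∈ B`, fails for all `η ≥ 2`; under GCH for `ℵ_{ω+1}`.

The earlier result `SingularAllEta` of this repository has only: no free set of cardinality `λ⁺`.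
The new points: the construction there gives for every `A` a small subset (a union of `cf λ` many
ladders) which is met by all the `f x` with `x` above some bound, whether or not `x` is in `A`; and
`A` is split into `λ` sets of cardinality `λ⁺`, whose bounds have a common bound.
-/

set_option autoImplicit false

namespace Pool.Agent.Results.MP_dbf0a5_lc.MetAlmostEverywhere

open Cardinal

universe u

/-- The relation `(κ, η, θ) → ι`: if `f` is a set mapping of order `κ` on a set `S` of cardinality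
`κ`, and the intersection of any `η` of the sets `f x` has cardinality less than `θ`, then there is
a free set of cardinality `ι`. -/
def Arrow (κ η θ ι : Cardinal.{u}) : Prop :=
  ∀ S : Type u, #S = κ → ∀ f : S → Set S, (∀ x, x ∉ f x) → (∀ x, #(f x) < κ) →
    (∀ X : Set S, #X = η → #(⋂ x ∈ X, f x : Set S) < θ) →
    ∃ Y : Set S, #Y = ι ∧ ∀ x ∈ Y, ∀ y ∈ Y, x ≠ y → x ∉ f y

/-- The polarized relation: for the same set mappings there are sets `A`, `B` of cardinalities
`ι`, `ι'` with `y ∉ f x` for all different `x ∈ A` and `y ∈ B`. -/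
def Polar (κ η θ ι ι' : Cardinal.{u}) : Prop :=
  ∀ S : Type u, #S = κ → ∀ f : S → Set S, (∀ x, x ∉ f x) → (∀ x, #(f x) < κ) →
    (∀ X : Set S, #X = η → #(⋂ x ∈ X, f x : Set S) < θ) →
    ∃ A B : Set S, #A = ι ∧ #B = ι' ∧ ∀ x ∈ A, ∀ y ∈ B, y ≠ x → y ∉ f x

/-- A strongly almost disjoint set mapping on `S` which meets every set of cardinality `λ⁺` almost
everywhere: `x ∉ f x`, `|f x| ≤ λ`, `|f x ∩ f y| < λ` for `x ≠ y`, and every `A` of cardinality
`λ⁺` contains a set `A₀` of cardinality `λ` such that `|f x ∩ A₀| = λ` for all but at most `λ`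
points `x`. -/
def IsStrong (lam : Cardinal.{u}) {S : Type u} (f : S → Set S) : Prop :=
  (∀ x, x ∉ f x) ∧ (∀ x, #(f x) ≤ lam) ∧ (∀ x y, x ≠ y → #(f x ∩ f y : Set S) < lam) ∧
    ∀ A : Set S, #A = Order.succ lam → ∃ A₀ ⊆ A, #A₀ = lam ∧
      #{x : S | #(f x ∩ A₀ : Set S) ≠ lam} ≤ lam

theorem arrow_polar {κ η θ ι : Cardinal.{u}} (h : Arrow κ η θ ι) : Polar κ η θ ι ι := by
  intro S hS f h1 h2 h3
  obtain ⟨Y, hY, h4⟩ := h S hS f h1 h2 h3
  exact ⟨Y, Y, hY, hY, fun x hx y hy hxy => h4 y hy x hx hxy⟩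

theorem not_polar {lam : Cardinal.{u}} (h0 : ℵ₀ ≤ lam)
    (h : ∀ S : Type u, #S = Order.succ lam → ∃ f : S → Set S, IsStrong lam f)
    {η : Cardinal.{u}} (hη : 2 ≤ η) :
    ¬ Polar (Order.succ lam) η lam (Order.succ lam) (Order.succ lam) := by
  intro hP
  have hS : #((Order.succ lam).out) = Order.succ lam := Cardinal.mk_out _
  obtain ⟨f, h1, h2, h3, h4⟩ := h _ hS
  obtain ⟨A, B, hA, hB, hAB⟩ := hP _ hS f h1 (fun x => Order.lt_succ_iff.2 (h2 x)) (by
    intro X hX
    have h5 : (2 : Cardinal.{u}) ≤ #X := by rw [hX]; exact hη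
    obtain ⟨x, y, hxy⟩ := Cardinal.two_le_iff.1 h5
    refine lt_of_le_of_lt (Cardinal.mk_le_mk_of_subset ?_)
      (h3 x.1 y.1 (fun h => hxy (Subtype.ext h)))
    intro z hz
    simp only [Set.mem_iInter] at hz
    exact ⟨hz x.1 x.2, hz y.1 y.2⟩)
  obtain ⟨B₀, hB₀, -, h5⟩ := h4 B hB
  have h6 : A ⊆ {x | #(f x ∩ B₀ : Set _) ≠ lam} := by
    intro x hx h7
    have h8 : f x ∩ B₀ = ∅ := by
      rw [Set.eq_empty_iff_forall_notMem]
      rintro y ⟨hy, hyB⟩
      exact hAB x hx y (hB₀ hyB) (fun h => h1 x (h ▸ hy)) hy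
    rw [h8, Cardinal.mk_emptyCollection] at h7
    rw [← h7] at h0
    exact absurd h0 (not_le.2 Cardinal.aleph0_pos)
  have h7 := (Cardinal.mk_le_mk_of_subset h6).trans h5
  rw [hA] at h7
  exact absurd h7 (not_le.2 (Order.lt_succ lam))

/-- **Main result.** -/
theorem result :
    (∀ lam : Cardinal.{u}, lam.IsSingular → (∀ κ < lam, (2 : Cardinal.{u}) ^ κ < lam) →
      (2 : Cardinal.{u}) ^ lam = Order.succ lam →
      (∀ S : Type u, #S = Order.succ lam → ∃ f : S → Set S, IsStrong lam f) ∧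
      ∀ η : Cardinal.{u}, 2 ≤ η →
        ¬ Polar (Order.succ lam) η lam (Order.succ lam) (Order.succ lam) ∧
        ¬ Arrow (Order.succ lam) η lam (Order.succ lam)) ∧
    ((∀ κ : Cardinal.{u}, ℵ₀ ≤ κ → (2 : Cardinal.{u}) ^ κ = Order.succ κ) →
      (∀ S : Type u, #S = aleph (Ordinal.omega0 + 1) →
        ∃ f : S → Set S, IsStrong (aleph Ordinal.omega0) f) ∧
      ∀ η : Cardinal.{u}, 2 ≤ η →
        ¬ Polar (aleph (Ordinal.omega0 + 1)) η (aleph Ordinal.omega0)
          (aleph (Ordinal.omega0 + 1)) (aleph (Ordinal.omega0 + 1)) ∧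
        ¬ Arrow (aleph (Ordinal.omega0 + 1)) η (aleph Ordinal.omega0)
          (aleph (Ordinal.omega0 + 1))) := by
  have key : ∀ lam : Cardinal.{u}, lam.IsSingular →
      (∀ κ < lam, (2 : Cardinal.{u}) ^ κ < lam) →
      (2 : Cardinal.{u}) ^ lam = Order.succ lam →
      (∀ S : Type u, #S = Order.succ lam → ∃ f : S → Set S, IsStrong lam f) ∧
      ∀ η : Cardinal.{u}, 2 ≤ η →
        ¬ Polar (Order.succ lam) η lam (Order.succ lam) (Order.succ lam) ∧
        ¬ Arrow (Order.succ lam) η lam (Order.succ lam) := by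
    intro lam hs hl hpow
    have h1 : ∀ S : Type u, #S = Order.succ lam → ∃ f : S → Set S, IsStrong lam f :=
      fun S hS => Pool.Agent.Y787.FS.mapping' hs hl hpow S hS
    refine ⟨h1, fun η hη => ?_⟩
    have h2 := not_polar hs.aleph0_le h1 hη
    exact ⟨h2, fun h => h2 (arrow_polar h)⟩
  refine ⟨key, fun hG => ?_⟩
  have hs : (aleph Ordinal.omega0 : Cardinal.{u}).IsSingular := Cardinal.isSingular_aleph_omega0
  have h := key (aleph Ordinal.omega0) hs (by
    intro κ hκ
    rcases lt_or_ge κ ℵ₀ with h | h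
    · exact (Cardinal.power_lt_aleph0 (by norm_num [Cardinal.ofNat_lt_aleph0]) h).trans_le
        hs.aleph0_le
    · rw [hG κ h]
      exact hs.isSuccLimit.succ_lt hκ) (hG _ hs.aleph0_le)
  rw [Cardinal.succ_aleph] at h
  exact h

end Pool.Agent.Results.MP_dbf0a5_lc.MetAlmostEverywhere
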